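import Pool.Agent.MP_46692b_an.H78.Main

open MeasureTheory Filter Topology

namespace Pool.Agent.Results.MP_46692b_an.FiniteArcs

open Pool.Agent.MP_46692b_an.H78

theorem evalEval_symm (P : MvPolynomial (Fin 2) ℂ) (z w : ℂ) :
    ((Polynomial.Bivariate.equivMvPolynomial ℂ).symm P).evalEval z w =
      MvPolynomial.eval ![z, w] P := by
  induction P using MvPolynomial.induction_on with
  | C a => simp
  | add p q hp hq => simp only [map_add, Polynomial.evalEval_add, hp, hq]
  | mul_X p i hp =>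
    simp only [map_mul, Polynomial.evalEval_mul, hp]
    fin_cases i <;> simp [Polynomial.evalEval_C]

/-- The support of a compactly supported finite positive measure on the plane whose Cauchy
transform satisfies a nontrivial polynomial equation almost everywhere is a finite union of
compact analytic arcs and isolated points. -/
theorem result (μ : Measure ℂ) [IsFiniteMeasure μ] (hK : IsCompact μ.support)
    (P : MvPolynomial (Fin 2) ℂ) (hP : P ≠ 0)
    (h : ∀ᵐ z ∂(volume : Measure ℂ), MvPolynomial.eval ![z, ∫ ζ, (z - ζ)⁻¹ ∂μ] P = 0) :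
    ∃ (n : ℕ) (γ : Fin n → ℝ → ℂ) (F : Set ℂ),
      (∀ i, ∃ a b : ℝ, a < 0 ∧ 1 < b ∧ AnalyticOnNhd ℝ (γ i) (Set.Ioo a b) ∧
        Set.InjOn (γ i) (Set.Ioo a b)) ∧
      F.Finite ∧ (∀ p ∈ F, ∀ᶠ z in 𝓝[≠] p, z ∉ μ.support) ∧
      μ.support = (⋃ i, γ i '' Set.Icc 0 1) ∪ F := by
  obtain ⟨𝒜, F, h1, h2, h3, h4, h5⟩ := global_arcs μ hK
    ((Polynomial.Bivariate.equivMvPolynomial ℂ).symm P)
    ((map_ne_zero_iff _ (Polynomial.Bivariate.equivMvPolynomial ℂ).symm.injective).2 hP) (by
      filter_upwards [h] with z hz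
      rw [evalEval_symm]
      exact hz)
  obtain ⟨n, f, -, rfl⟩ := h1.fin_param
  choose γ a b ha hb h6 h7 h8 using fun i => h2 (f i) (Set.mem_range_self i)
  refine ⟨n, γ, F, fun i => ⟨a i, b i, ha i, hb i, h6 i, h7 i⟩, h3, h4, ?_⟩
  rw [h5, Set.sUnion_range]
  simp only [h8]

end Pool.Agent.Results.MP_46692b_an.FiniteArcs
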