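import Pool.Agent.MP_46692b_an.H26.Cauchy
import Pool.Agent.MP_46692b_an.H26.Induct
import Pool.Agent.MP_46692b_an.H26.Alg

open MeasureTheory

namespace Pool.Agent.Results.MP_46692b_an.NullSupport

open Pool.Agent.MP_46692b_an.H26

theorem evalEval_symm (P : MvPolynomial (Fin 2) ℂ) (z w : ℂ) :
    ((Polynomial.Bivariate.equivMvPolynomial ℂ).symm P).evalEval z w =
      MvPolynomial.eval ![z, w] P := by
  induction P using MvPolynomial.induction_on with
  | C a => simp
  | add p q hp hq => simp only [map_add, Polynomial.evalEval_add, hp, hq]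
  | mul_X p i hp =>
    simp only [map_mul, Polynomial.evalEval_mul, hp]
    fin_cases i <;> simp [Polynomial.evalEval_C]

/-- A finite positive measure on the plane whose Cauchy transform satisfies a nontrivial
polynomial equation almost everywhere has a support of zero area. -/
theorem result (μ : Measure ℂ) [IsFiniteMeasure μ] (P : MvPolynomial (Fin 2) ℂ) (hP : P ≠ 0)
    (h : ∀ᵐ z ∂(volume : Measure ℂ), MvPolynomial.eval ![z, ∫ ζ, (z - ζ)⁻¹ ∂μ] P = 0) :
    (volume : Measure ℂ) μ.support = 0 := by
  obtain ⟨F, hF, hloc⟩ := local_branches ((Polynomial.Bivariate.equivMvPolynomial ℂ).symm P)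
    ((map_ne_zero_iff _ (Polynomial.Bivariate.equivMvPolynomial ℂ).symm.injective).2 hP)
  have h1 : (volume : Measure ℂ) (μ.support \ F) = 0 := by
    apply measure_null_of_locally_null
    rintro p ⟨-, hp⟩
    obtain ⟨U, s, A, hU, hpU, hA, hne, hroots⟩ := hloc p hp
    have h2 := support_null μ (cauchy_aestronglyMeasurable μ)
      (fun ψ hψ hc => cauchy_weak μ hψ hc) A s U hU hA hne (by
        filter_upwards [h] with z hz hzU
        exact hroots z hzU _ (by rw [evalEval_symm]; exact hz))
    refine ⟨μ.support ∩ U, ?_, h2⟩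
    apply Filter.inter_mem
    · exact Filter.mem_of_superset self_mem_nhdsWithin Set.sdiff_subset
    · exact mem_nhdsWithin_of_mem_nhds (hU.mem_nhds hpU)
  have h2 : (volume : Measure ℂ) F = 0 := hF.measure_zero _
  exact measure_mono_null (Set.subset_sdiff_union _ F) (measure_union_null h1 h2)

end Pool.Agent.Results.MP_46692b_an.NullSupport
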